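import Pool.Agent.Q215.MB.Stm

set_option autoImplicit false

open Set Topology Filter

namespace Pool.Agent.Q186.MB

open Pool.Agent.Q215.WR (Two)
open Pool.Agent.Q215.MB

theorem near {τ : ℝ → ℝ} {P : Set ℝ} (hc : ContinuousOn τ P) {x : ℝ} (hx : x ∈ P) {ε : ℝ}
    (hε : 0 < ε) : ∃ δ : ℝ, 0 < δ ∧ ∀ z ∈ P, |z - x| < δ → |τ z - τ x| < ε := by
  obtain ⟨δ, hδ, h⟩ := Metric.continuousOn_iff.1 hc x hx ε hε
  refine ⟨δ, hδ, fun z hz hzx => ?_⟩
  have := h z hz (by rw [Real.dist_eq]; exact hzx)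
  rwa [Real.dist_eq] at this

theorem two_image {τ : ℝ → ℝ} {P M : Set ℝ} (hm : StrictMonoOn τ P ∨ StrictAntiOn τ P)
    (hc : ContinuousOn τ P) (hMP : M ⊆ P) {x : ℝ} (hx : x ∈ P) (h : Two M x) :
    Two (τ '' M) (τ x) := by
  intro ε hε
  obtain ⟨δ, hδ, hn⟩ := near hc hx hε
  obtain ⟨⟨z, hzM, hz1, hz2⟩, ⟨w, hwM, hw1, hw2⟩⟩ := h δ hδ
  have e1 := hn z (hMP hzM) (by rw [abs_lt]; constructor <;> linarith)
  have e2 := hn w (hMP hwM) (by rw [abs_lt]; constructor <;> linarith)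
  rw [abs_lt] at e1 e2
  rcases hm with hm | hm
  · have a1 := hm (hMP hzM) hx hz2
    have a2 := hm hx (hMP hwM) hw1
    exact ⟨⟨τ z, mem_image_of_mem _ hzM, by linarith, a1⟩,
      ⟨τ w, mem_image_of_mem _ hwM, a2, by linarith⟩⟩
  · have a1 := hm (hMP hzM) hx hz2
    have a2 := hm hx (hMP hwM) hw1
    exact ⟨⟨τ w, mem_image_of_mem _ hwM, by linarith, a2⟩,
      ⟨τ z, mem_image_of_mem _ hzM, a1, by linarith⟩⟩

theorem core_image {l l' : ℝ → ℕ} {τ : ℝ → ℝ} {i : ℕ} {P : Set ℝ}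
    (hm : StrictMonoOn τ P ∨ StrictAntiOn τ P)
    (hc : ContinuousOn τ P) (hl : ∀ x ∈ P, l' (τ x) = l x) (h : Core l i P) :
    Core l' i (τ '' P) := by
  obtain ⟨hK, hne, hi, M, hMc, hMP, hM, hcl⟩ := h
  refine ⟨hK.image_of_continuousOn hc, hne.image _, ?_, τ '' M, hMc.image _, image_mono hMP, ?_, ?_⟩
  · rintro _ ⟨x, hx, rfl⟩
    rw [hl x hx]; exact hi x hx
  · rintro _ ⟨x, hx, rfl⟩
    exact ⟨by rw [hl x (hMP hx)]; exact (hM x hx).1, two_image hm hc hMP (hMP hx) (hM x hx).2⟩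
  · rintro _ ⟨x, hx, rfl⟩
    exact ((hc x hx).mono hMP).mem_closure_image (hcl hx)

theorem t_trans : S_trans := by
  intro l l' τ j
  induction j with
  | zero =>
    intro i P hm hc hl h
    exact core_image hm hc hl h
  | succ j ih =>
    intro i P hm hc hl h
    obtain ⟨h1, h2, h3⟩ := h
    refine ⟨core_image hm hc hl h1, ?_, ?_⟩
    · rintro _ ⟨x, hx, rfl⟩ hi
      rw [hl x hx] at hi
      exact two_image hm hc subset_rfl hx (h2 x hx hi)
    · rintro u v ⟨_, ⟨y, hy, rfl⟩, hu, hv⟩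
      obtain ⟨δ, hδ, hn⟩ := near hc hy (ε := min (τ y - u) (v - τ y))
        (lt_min (by linarith) (by linarith))
      obtain ⟨Q, hQ, hQP⟩ := h3 (y - δ) (y + δ) ⟨y, hy, by linarith, by linarith⟩
      have hQP' : Q ⊆ P := fun z hz => (hQ hz).1
      refine ⟨τ '' Q, ?_, ih (i + 1) Q ?_ (hc.mono hQP') (fun x hx => hl x (hQP' hx)) hQP⟩
      · rintro _ ⟨z, hz, rfl⟩
        have hz' := hQ hz
        have := hn z hz'.1 (by rw [abs_lt]; constructor <;> linarith [hz'.2.1, hz'.2.2])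
        have b1 := lt_of_lt_of_le this (min_le_left _ _)
        have b2 := lt_of_lt_of_le this (min_le_right _ _)
        rw [abs_lt] at b1 b2
        exact ⟨mem_image_of_mem _ hz'.1, by linarith, by linarith⟩
      · rcases hm with hm | hm
        · exact Or.inl (hm.mono hQP')
        · exact Or.inr (hm.mono hQP')

end Pool.Agent.Q186.MB
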